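import Pool.Agent.Results.MP_e3c312_co.CuspSymmetry

/-!
# The cusp example of `CuspSymmetry` in the quotient of the space of all placements

The starting file `CuspSymmetry` works with the quotient of the space of the placements with the
given edge lengths. Here the same is done for the quotient of the space of all placements.
-/

set_option autoImplicit false

namespace Pool.Agent.K4H89.CuspFrozen

open Pool.Agent.Results.MP_e3c312_co.CuspSymmetry
open scoped Topology

/-- congruence of placements -/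
def R : (Fin 7 → EuclideanSpace ℝ (Fin 3)) → (Fin 7 → EuclideanSpace ℝ (Fin 3)) → Prop :=
  fun q q' => ∃ T : EuclideanSpace ℝ (Fin 3) ≃ᵢ EuclideanSpace ℝ (Fin 3), ∀ i, T (q i) = q' i

theorem R_equiv : Equivalence R where
  refl q := ⟨IsometryEquiv.refl _, fun _ => rfl⟩
  symm := by
    rintro q q' ⟨T, h⟩
    exact ⟨T.symm, fun i => by rw [← h i, T.symm_apply_apply]⟩
  trans := by
    rintro q q' q'' ⟨T, h⟩ ⟨T', h'⟩
    exact ⟨T.trans T', fun i => by rw [← h' i, ← h i]; rfl⟩

/-- the quotient of the space of all placements -/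
abbrev Cfg : Type := Quot R

theorem exact {q q' : Fin 7 → E 3} (h : Quot.mk R q = Quot.mk R q') : R q q' :=
  (Quot.eqvGen_exact h).rec (fun _ _ h => h) R_equiv.refl (fun _ _ _ h => R_equiv.symm h)
    (fun _ _ _ _ _ h h' => R_equiv.trans h h')

theorem dom_of_unit (y : Set.Ioo (0 : ℝ) 1) : (2 * (y : ℝ) - 1) / 10 ∈ Dom := by
  obtain ⟨y, h1, h2⟩ := y
  constructor <;> simp only <;> linarith

/-- the curve of classes, parametrised by `(0, 1)` -/
noncomputable def curveQ (y : Set.Ioo (0 : ℝ) 1) : Cfg := Quot.mk R (std ((2 * (y : ℝ) - 1) / 10))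

theorem curveQ_continuous : Continuous curveQ := by
  unfold curveQ
  refine continuous_quot_mk.comp ?_
  refine cont_std.comp_continuous (by fun_prop) ?_
  exact fun y => dom_of_unit y

/-- the invariant `|m N'|^2 - |m N|^2` -/
noncomputable def invQ0 (q : Fin 7 → E 3) : ℝ := dist (q 2) (q 6) ^ 2 - dist (q 1) (q 6) ^ 2

theorem invQ0_congr (q q' : Fin 7 → E 3) (h : R q q') : invQ0 q = invQ0 q' := by
  obtain ⟨T, hT⟩ := h
  unfold invQ0
  rw [← hT 1, ← hT 2, ← hT 6, T.dist_eq, T.dist_eq]

theorem invQ0_continuous : Continuous invQ0 := by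
  unfold invQ0
  exact (((continuous_apply 2).dist (continuous_apply 6)).pow 2).sub
    (((continuous_apply 1).dist (continuous_apply 6)).pow 2)

/-- the invariant on the quotient -/
noncomputable def invQ : Cfg → ℝ := Quot.lift invQ0 invQ0_congr

theorem invQ_continuous : Continuous invQ := continuous_quot_lift invQ0_congr invQ0_continuous

theorem invQ_curve (y : Set.Ioo (0 : ℝ) 1) : invQ (curveQ y) = 4 * fh ((2 * (y : ℝ) - 1) / 10) :=
  inv_std (dom_of_unit y)

theorem curveQ_isEmbedding : Topology.IsEmbedding curveQ := by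
  refine Topology.IsEmbedding.of_comp curveQ_continuous invQ_continuous ?_
  have hc : Continuous (invQ ∘ curveQ) := invQ_continuous.comp curveQ_continuous
  have hm : StrictMono (invQ ∘ curveQ) := by
    intro y y' h
    simp only [Function.comp, invQ_curve]
    have h' : (2 * (y : ℝ) - 1) / 10 < (2 * (y' : ℝ) - 1) / 10 := by
      have : (y : ℝ) < y' := h
      linarith
    have := fh_strictMono (dom_of_unit y) (dom_of_unit y') h'
    linarith
  refine hm.isEmbedding_of_ordConnected ?_
  have : PreconnectedSpace (Set.Ioo (0 : ℝ) 1) :=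
    Subtype.preconnectedSpace isPreconnected_Ioo
  exact (isPreconnected_range hc).ordConnected

/-- the local conditions -/
def NearQ (q : Fin 7 → E 3) : Prop :=
  0 < dist (q 1) (q 2) ∧ dist (q 1) (q 2) ^ 2 < 8 ∧
    |dist (q 3) (q 4) ^ 2 - 25| < 12 / 100 ∧ dist (q 3) (q 5) ^ 2 < 5661

theorem nearQ_congr (q q' : Fin 7 → E 3) (h : R q q') (hq : NearQ q) : NearQ q' := by
  obtain ⟨T, hT⟩ := h
  unfold NearQ at *
  rw [← hT 1, ← hT 2, ← hT 3, ← hT 4, ← hT 5, T.dist_eq, T.dist_eq, T.dist_eq]
  exact hq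

theorem nearQ_isOpen : IsOpen {q : Fin 7 → E 3 | NearQ q} := by
  have c12 : Continuous fun q : Fin 7 → E 3 => dist (q 1) (q 2) :=
    (continuous_apply 1).dist (continuous_apply 2)
  have c34 : Continuous fun q : Fin 7 → E 3 => dist (q 3) (q 4) :=
    (continuous_apply 3).dist (continuous_apply 4)
  have c35 : Continuous fun q : Fin 7 → E 3 => dist (q 3) (q 5) :=
    (continuous_apply 3).dist (continuous_apply 5)
  exact (isOpen_lt continuous_const c12).inter ((isOpen_lt (c12.pow 2) continuous_const).inter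
    ((isOpen_lt ((c34.pow 2).sub continuous_const).abs continuous_const).inter
      (isOpen_lt (c35.pow 2) continuous_const)))

theorem nearQ_std {x : ℝ} (hx : x ∈ Dom) : NearQ (std x) := by
  have h := rel_std hx
  have hX := dom_X hx
  have h0 : 0 ≤ x ^ 2 := sq_nonneg x
  have hq := q_pos h0 hX
  have hr := r_pos h0 hX
  obtain ⟨h12, h34, h35, _, _, _, _⟩ := h.nonedges
  change dist (std x 1) (std x 2) ^ 2 = 4 * fz (x ^ 2) ^ 2 at h12
  change dist (std x 3) (std x 4) ^ 2 = 25 + 12 * x ^ 2 at h34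
  change dist (std x 3) (std x 5) ^ 2 = 5121 + 180 * x ^ 2 at h35
  have hz2 : fz (x ^ 2) ^ 2 < 2 := by
    unfold fz
    rw [Real.sq_sqrt (div_pos hr hq).le, div_lt_iff₀ hq]
    nlinarith
  refine ⟨?_, ?_, ?_, ?_⟩
  · have : dist (std x 1) (std x 2) ≠ 0 := by
      intro h'
      rw [h'] at h12
      have := h.z0
      have h3 : 0 < fz (x ^ 2) ^ 2 := by positivity
      linarith
    exact lt_of_le_of_ne dist_nonneg this.symm
  · rw [h12]; linarith
  · rw [h34, abs_lt]; constructor <;> linarith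
  · rw [h35]; linarith

/-- the open set -/
def O : Set Cfg := Quot.mk R '' {q | NearQ q}

theorem O_isOpen : IsOpen O := by
  refine isQuotientMap_quot_mk.isOpen_preimage.1 ?_
  convert nearQ_isOpen using 1
  ext q
  constructor
  · rintro ⟨q', hq', h⟩
    exact nearQ_congr q' q (exact h) hq'
  · intro hq
    exact ⟨q, hq, rfl⟩

/-- the classes of the realizations -/
def C : Set Cfg := {x | ∃ q : Fin 7 → EuclideanSpace ℝ (Fin 3), Quot.mk R q = x ∧
  ∀ i j : Fin 7, G7.Adj i j → dist (q i) (q j) = dist (p7 i) (p7 j)}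

theorem range_eq : Set.range curveQ = O ∩ C := by
  ext c
  constructor
  · rintro ⟨y, rfl⟩
    exact ⟨⟨_, nearQ_std (dom_of_unit y), rfl⟩, ⟨_, rfl, std_mem (dom_of_unit y)⟩⟩
  · rintro ⟨⟨q, hq, rfl⟩, ⟨q', hqq, hq'⟩⟩
    obtain ⟨h1, h2, h3, h4⟩ := nearQ_congr q q' (exact hqq.symm) hq
    obtain ⟨T, x, hx, hT⟩ := local_unique q' hq' h1 h2 h3 h4
    have hx10 : (10 * x + 1) / 2 ∈ Set.Ioo (0 : ℝ) 1 := by
      obtain ⟨a, b⟩ := hx
      constructor <;> linarith
    refine ⟨⟨(10 * x + 1) / 2, hx10⟩, ?_⟩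
    rw [← hqq]
    refine Quot.sound (R_equiv.symm ⟨T, fun i => ?_⟩)
    show T (q' i) = std ((2 * ((10 * x + 1) / 2) - 1) / 10) i
    rw [show (2 * ((10 * x + 1) / 2) - 1) / 10 = x by ring]
    exact hT i

/-- the homeomorphism of the neighbourhood with the interval `(0, 1)` -/
noncomputable def homeo : ↥(O ∩ C) ≃ₜ ↥(Set.Ioo (0 : ℝ) 1) :=
  (Homeomorph.setCongr range_eq.symm).trans curveQ_isEmbedding.toHomeomorph.symm

theorem homeo_symm (y : Set.Ioo (0 : ℝ) 1) : (homeo.symm y).1 = curveQ y := rfl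

/-- the group of order two generated by the reflection -/
noncomputable def Gam' : Subgroup (EuclideanSpace ℝ (Fin 3) ≃ᵢ EuclideanSpace ℝ (Fin 3)) := Gam

/-- the underlying permutation of an automorphism of the graph -/
def toPerm : GraphAut G7 →* Equiv.Perm (Fin 7) where
  toFun a := RelIso.toEquiv a
  map_one' := rfl
  map_mul' _ _ := rfl

/-- the homomorphism to the group of permutations -/
noncomputable def theta' : Gam' →* Equiv.Perm (Fin 7) := toPerm.comp theta

theorem theta'_adj (g : Gam') (u v : Fin 7) : G7.Adj u v ↔ G7.Adj (theta' g u) (theta' g v) :=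
  ((show G7 ≃g G7 from theta g).map_rel_iff').symm

theorem theta'_symm (g : Gam') (i : Fin 7) :
    (g : EuclideanSpace ℝ (Fin 3) ≃ᵢ EuclideanSpace ℝ (Fin 3)) (p7 i) = p7 (theta' g i) :=
  p7_symm g i

end Pool.Agent.K4H89.CuspFrozen
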